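import Mathlib

set_option autoImplicit false

namespace Pool.Agent.W_MP_165cab_nt

open Finset

/-- `f p n` counts the pairs `(k, j)` with `0 ≤ j ≤ k ≤ n - 1` and `p ∤ binom(k, j)`. -/
def f (p n : ℕ) : ℕ :=
  ((range n ×ˢ range n).filter (fun kj => kj.2 ≤ kj.1 ∧ ¬ p ∣ kj.1.choose kj.2)).card

/-- `θ_p = log (p (p + 1) / 2) / log p`. -/
noncomputable def theta (p : ℕ) : ℝ := Real.log ((p : ℝ) * ((p : ℝ) + 1) / 2) / Real.log (p : ℝ)

/-- `λ_p = liminf f_p(n) n ^ (-θ_p)`. -/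
noncomputable def lam (p : ℕ) : ℝ :=
  Filter.liminf (fun n : ℕ => (f p n : ℝ) * (n : ℝ) ^ (-theta p)) Filter.atTop

end Pool.Agent.W_MP_165cab_nt
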