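import Mathlib
import Pool.Agent.W_MP_165cab_nt.Defs

set_option autoImplicit false

namespace Pool.Agent.W_MP_165cab_nt

open Finset

/-- number of entries in row `n` of Pascal's triangle prime to `p` -/
def R (p n : ℕ) : ℕ := ((range (n + 1)).filter (fun j => ¬ p ∣ n.choose j)).card

lemma f_zero (p : ℕ) : f p 0 = 0 := by simp [f]

lemma f_succ (p n : ℕ) : f p (n + 1) = f p n + R p n := by
  classical
  unfold f R
  rw [← Finset.card_map (⟨fun j => (n, j), fun a b h => by simpa using h⟩ : ℕ ↪ ℕ × ℕ)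
    (s := (range (n + 1)).filter (fun j => ¬ p ∣ n.choose j))]
  rw [← Finset.card_union_of_disjoint]
  · congr 1
    ext ⟨k, j⟩
    simp only [mem_filter, mem_product, mem_range, mem_union, mem_map]
    constructor
    · rintro ⟨⟨hk, hj⟩, hjk, h⟩
      rcases Nat.lt_succ_iff_lt_or_eq.mp hk with hk' | hk'
      · left
        exact ⟨⟨hk', lt_of_le_of_lt hjk hk'⟩, hjk, h⟩
      · right
        subst hk'
        exact ⟨j, ⟨hj, h⟩, rfl⟩
    · rintro (⟨⟨hk, hj⟩, hjk, h⟩ | ⟨j', ⟨hj', h⟩, h3⟩)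
      · exact ⟨⟨by omega, by omega⟩, hjk, h⟩
      · obtain ⟨rfl, rfl⟩ : n = k ∧ j' = j := Prod.mk.inj h3
        exact ⟨⟨by omega, hj'⟩, by omega, h⟩
  · rw [Finset.disjoint_left]
    rintro ⟨k, j⟩ h1 h2
    simp only [mem_filter, mem_product, mem_range, mem_map] at h1 h2
    obtain ⟨j', _, h3⟩ := h2
    obtain ⟨rfl, rfl⟩ : n = k ∧ j' = j := Prod.mk.inj h3
    omega

lemma f_mono (p : ℕ) : Monotone (f p) :=
  monotone_nat_of_le_succ (fun n => by rw [f_succ]; omega)

lemma not_dvd_choose_small {p r s : ℕ} (hp : p.Prime) (hr : r < p) (hs : s ≤ r) :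
    ¬ p ∣ r.choose s := by
  intro h
  have h1 := Nat.choose_mul_factorial_mul_factorial hs
  have h2 : p ∣ r.factorial := by
    rw [← h1]
    exact Dvd.dvd.mul_right (Dvd.dvd.mul_right h _) _
  rw [hp.dvd_factorial] at h2
  omega

lemma lucas_dvd {p : ℕ} (hp : p.Prime) (n r j : ℕ) (hr : r < p) :
    p ∣ (p * n + r).choose j ↔ p ∣ r.choose (j % p) * n.choose (j / p) := by
  have : Fact p.Prime := ⟨hp⟩
  have h := Choose.choose_modEq_choose_mod_mul_choose_div_nat (n := p * n + r) (k := j) (p := p)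
  have h1 : (p * n + r) % p = r := by
    rw [Nat.mul_add_mod, Nat.mod_eq_of_lt hr]
  have h2 : (p * n + r) / p = n := by
    rw [Nat.mul_add_div hp.pos, Nat.div_eq_of_lt hr]; rfl
  rw [h1, h2] at h
  exact (Nat.ModEq.dvd_iff h (dvd_refl p))

lemma R_rec {p : ℕ} (hp : p.Prime) (n r : ℕ) (hr : r < p) :
    R p (p * n + r) = (r + 1) * R p n := by
  classical
  have key : ((range (p * n + r + 1)).filter (fun j => ¬ p ∣ (p * n + r).choose j)).card =
      (((range (r + 1)) ×ˢ ((range (n + 1)).filter (fun j => ¬ p ∣ n.choose j)))).card := by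
    apply Finset.card_nbij' (fun j => (j % p, j / p)) (fun sj => p * sj.2 + sj.1)
    · intro j hj
      simp only [coe_filter, mem_range, Set.mem_ofPred_eq] at hj
      obtain ⟨hj1, hj2⟩ := hj
      rw [lucas_dvd hp n r j hr, hp.dvd_mul, not_or] at hj2
      have h3 : j % p ≤ r := by
        by_contra h
        push Not at h
        exact hj2.1 (by rw [Nat.choose_eq_zero_of_lt h]; exact dvd_zero _)
      have h4 : j / p ≤ n := by
        by_contra h
        push Not at h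
        exact hj2.2 (by rw [Nat.choose_eq_zero_of_lt h]; exact dvd_zero _)
      simp only [coe_product, Set.mem_prod, mem_coe, mem_range, mem_filter]
      exact ⟨by omega, by omega, hj2.2⟩
    · rintro ⟨s, j⟩ hj
      simp only [coe_product, Set.mem_prod, mem_coe, mem_range, mem_filter] at hj
      obtain ⟨hs, hj1, hj2⟩ := hj
      simp only [coe_filter, mem_range, Set.mem_ofPred_eq]
      have h1 : (p * j + s) % p = s := by
        rw [Nat.mul_add_mod, Nat.mod_eq_of_lt (by omega)]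
      have h2 : (p * j + s) / p = j := by
        rw [Nat.mul_add_div hp.pos, Nat.div_eq_of_lt (by omega)]; rfl
      refine ⟨?_, ?_⟩
      · have : p * j ≤ p * n := Nat.mul_le_mul_left p (by omega)
        omega
      · rw [lucas_dvd hp n r _ hr, hp.dvd_mul, not_or, h1, h2]
        exact ⟨not_dvd_choose_small hp hr (by omega), hj2⟩
    · intro j hj
      exact Nat.div_add_mod j p
    · rintro ⟨s, j⟩ hj
      simp only [coe_product, Set.mem_prod, mem_coe, mem_range, mem_filter] at hj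
      obtain ⟨hs, hj1, hj2⟩ := hj
      have h1 : (p * j + s) % p = s := by
        rw [Nat.mul_add_mod, Nat.mod_eq_of_lt (by omega)]
      have h2 : (p * j + s) / p = j := by
        rw [Nat.mul_add_div hp.pos, Nat.div_eq_of_lt (by omega)]; rfl
      simp only [h1, h2]
  unfold R
  rw [key, Finset.card_product, Finset.card_range]

lemma tri_succ (d : ℕ) : (d + 1) * (d + 1 + 1) / 2 = d * (d + 1) / 2 + (d + 1) := by
  have : (d + 1) * (d + 1 + 1) = d * (d + 1) + (d + 1) * 2 := by ring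
  rw [this, Nat.add_mul_div_right _ _ (by norm_num)]

lemma two_tri (d : ℕ) : 2 * (d * (d + 1) / 2) = d * (d + 1) :=
  Nat.mul_div_cancel' (Nat.even_mul_succ_self d).two_dvd

lemma f_add {p : ℕ} (hp : p.Prime) (n r : ℕ) (hr : r ≤ p) :
    f p (p * n + r) = f p (p * n) + r * (r + 1) / 2 * R p n := by
  induction r with
  | zero => simp
  | succ r ih =>
    rw [← add_assoc, f_succ, ih (by omega), R_rec hp n r (by omega), tri_succ]
    ring

lemma f_mul {p : ℕ} (hp : p.Prime) (n : ℕ) : f p (p * n) = p * (p + 1) / 2 * f p n := by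
  induction n with
  | zero => simp [f_zero]
  | succ n ih =>
    rw [mul_add, mul_one, f_add hp n p le_rfl, ih, f_succ]
    ring

lemma f_rec {p : ℕ} (hp : p.Prime) (n r : ℕ) (hr : r ≤ p) :
    f p (p * n + r) = p * (p + 1) / 2 * f p n + r * (r + 1) / 2 * R p n := by
  rw [f_add hp n r hr, f_mul hp]

lemma f_pow {p : ℕ} (hp : p.Prime) (n k : ℕ) :
    f p (n * p ^ k) = (p * (p + 1) / 2) ^ k * f p n := by
  induction k with
  | zero => simp
  | succ k ih =>
    rw [show n * p ^ (k + 1) = p * (n * p ^ k) by ring, f_mul hp, ih]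
    ring

lemma R_zero {p : ℕ} (hp : p.Prime) : R p 0 = 1 := by
  unfold R
  rw [Finset.filter_true_of_mem]
  · simp
  · intro j hj
    simp only [zero_add, mem_range, Nat.lt_one_iff] at hj
    subst hj
    simp only [Nat.choose_self]
    exact hp.one_lt.ne' ∘ Nat.dvd_one.mp

lemma R_mul {p : ℕ} (hp : p.Prime) (n k : ℕ) : ∀ j, j < p ^ k →
    R p (n * p ^ k + j) = R p n * R p j := by
  induction k with
  | zero =>
    intro j hj
    have : j = 0 := by simpa using hj
    subst this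
    simp [R_zero hp]
  | succ k ih =>
    intro j hj
    have h1 : j / p < p ^ k := by
      rw [Nat.div_lt_iff_lt_mul hp.pos]
      rw [pow_succ] at hj
      exact hj
    have h2 : n * p ^ (k + 1) + j = p * (n * p ^ k + j / p) + j % p := by
      have := Nat.div_add_mod j p
      calc n * p ^ (k + 1) + j = n * p ^ (k + 1) + (p * (j / p) + j % p) := by rw [this]
        _ = _ := by ring
    have h3 : j = p * (j / p) + j % p := (Nat.div_add_mod j p).symm
    have h4 : j % p < p := Nat.mod_lt _ hp.pos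
    rw [h2, R_rec hp _ _ h4, ih _ h1]
    conv_rhs => rw [h3, R_rec hp _ _ h4]
    ring

lemma f_split {p : ℕ} (hp : p.Prime) (n k m : ℕ) (hm : m ≤ p ^ k) :
    f p (n * p ^ k + m) = (p * (p + 1) / 2) ^ k * f p n + R p n * f p m := by
  induction m with
  | zero => simp [f_pow hp, f_zero]
  | succ m ih =>
    rw [← add_assoc, f_succ, ih (by omega), R_mul hp n k m (by omega), f_succ]
    ring


/-! ### The real inequality -/

lemma f_one {p : ℕ} (hp : p.Prime) : f p 1 = 1 := by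
  have := f_succ p 0
  rw [zero_add, f_zero, R_zero hp] at this
  simpa using this

lemma R_digit {p : ℕ} (hp : p.Prime) (d : ℕ) (hd : d < p) : R p d = d + 1 := by
  have := R_rec hp 0 d hd
  simpa [R_zero hp] using this

lemma f_digit {p : ℕ} (hp : p.Prime) (d : ℕ) (hd : d ≤ p) : f p d = d * (d + 1) / 2 := by
  have := f_rec hp 0 d hd
  simpa [R_zero hp, f_zero] using this

/-- the exponent facts about `θ` that are used -/
lemma pow_theta {p : ℕ} (hp : p.Prime) :
    (p : ℝ) ^ theta p = ((p * (p + 1) / 2 : ℕ) : ℝ) := by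
  have h1 : (1 : ℝ) < p := by exact_mod_cast hp.one_lt
  have h2 : (0 : ℝ) < p := by linarith
  have h3 : ((p * (p + 1) / 2 : ℕ) : ℝ) = (p : ℝ) * ((p : ℝ) + 1) / 2 := by
    have := two_tri p
    have h4 : (2 : ℝ) * ((p * (p + 1) / 2 : ℕ) : ℝ) = (p : ℝ) * ((p : ℝ) + 1) := by
      exact_mod_cast this
    linarith
  rw [h3]
  unfold theta
  rw [Real.rpow_def_of_pos h2, mul_div_cancel₀, Real.exp_log (by positivity)]
  exact (Real.log_pos h1).ne'

lemma theta_le_of {p : ℕ} (hp : p.Prime) (a b : ℕ) (hb : 0 < b)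
    (h : (p * (p + 1) / 2) ^ b ≤ p ^ a) : theta p ≤ (a : ℝ) / b := by
  have h1 : (1 : ℝ) < p := by exact_mod_cast hp.one_lt
  have h2 : (0 : ℝ) < p := by linarith
  have hb' : (0 : ℝ) < b := by exact_mod_cast hb
  have h5 : (((p * (p + 1) / 2 : ℕ) : ℝ)) ^ b ≤ (p : ℝ) ^ a := by exact_mod_cast h
  rw [← pow_theta hp, ← Real.rpow_natCast, ← Real.rpow_mul h2.le, ← Real.rpow_natCast,
    Real.rpow_le_rpow_left_iff h1] at h5
  rw [le_div_iff₀ hb']
  exact h5

lemma le_theta_of {p : ℕ} (hp : p.Prime) (a b : ℕ) (hb : 0 < b)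
    (h : p ^ a ≤ (p * (p + 1) / 2) ^ b) : (a : ℝ) / b ≤ theta p := by
  have h1 : (1 : ℝ) < p := by exact_mod_cast hp.one_lt
  have h2 : (0 : ℝ) < p := by linarith
  have hb' : (0 : ℝ) < b := by exact_mod_cast hb
  have h5 : (p : ℝ) ^ a ≤ (((p * (p + 1) / 2 : ℕ) : ℝ)) ^ b := by exact_mod_cast h
  rw [← pow_theta hp, ← Real.rpow_natCast, ← Real.rpow_natCast, ← Real.rpow_mul h2.le,
    Real.rpow_le_rpow_left_iff h1] at h5
  rw [div_le_iff₀ hb']
  exact h5

/-- `n` is a good prefix for the constant `L`. -/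
def Good (p : ℕ) (L : ℝ) (n : ℕ) : Prop :=
  ∀ k m : ℕ, m < p ^ k → L * ((n * p ^ k + m : ℕ) : ℝ) ^ theta p ≤ (f p (n * p ^ k + m) : ℝ)

lemma good_of_le {p : ℕ} (hp : p.Prime) (hθ : 0 ≤ theta p) (L : ℝ) (hL : 0 ≤ L) (n : ℕ)
    (h : L * ((n + 1 : ℕ) : ℝ) ^ theta p ≤ f p n) : Good p L n := by
  intro k m hm
  have h1 : f p (n * p ^ k) ≤ f p (n * p ^ k + m) := f_mono p (by omega)
  rw [f_pow hp] at h1
  have h2 : (((p * (p + 1) / 2) ^ k * f p n : ℕ) : ℝ) ≤ (f p (n * p ^ k + m) : ℝ) := by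
    exact_mod_cast h1
  refine le_trans ?_ h2
  have h3 : ((n * p ^ k + m : ℕ) : ℝ) ≤ ((n + 1 : ℕ) : ℝ) * ((p ^ k : ℕ) : ℝ) := by
    have : n * p ^ k + m ≤ (n + 1) * p ^ k := by
      rw [add_mul, one_mul]; omega
    exact_mod_cast this
  have h4 : ((n * p ^ k + m : ℕ) : ℝ) ^ theta p ≤
      (((n + 1 : ℕ) : ℝ) * ((p ^ k : ℕ) : ℝ)) ^ theta p :=
    Real.rpow_le_rpow (by positivity) h3 hθ
  have h5 : (((n + 1 : ℕ) : ℝ) * ((p ^ k : ℕ) : ℝ)) ^ theta p =
      ((n + 1 : ℕ) : ℝ) ^ theta p * ((p * (p + 1) / 2 : ℕ) : ℝ) ^ k := by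
    rw [Real.mul_rpow (by positivity) (by positivity)]
    congr 1
    push_cast
    rw [← Real.rpow_natCast, ← Real.rpow_mul (by positivity), mul_comm, Real.rpow_mul
      (by positivity), pow_theta hp, Real.rpow_natCast]
  calc L * ((n * p ^ k + m : ℕ) : ℝ) ^ theta p
      ≤ L * (((n + 1 : ℕ) : ℝ) ^ theta p * ((p * (p + 1) / 2 : ℕ) : ℝ) ^ k) := by
        rw [← h5]; exact mul_le_mul_of_nonneg_left h4 hL
    _ = (L * ((n + 1 : ℕ) : ℝ) ^ theta p) * ((p * (p + 1) / 2 : ℕ) : ℝ) ^ k := by ring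
    _ ≤ f p n * ((p * (p + 1) / 2 : ℕ) : ℝ) ^ k :=
        mul_le_mul_of_nonneg_right h (by positivity)
    _ = _ := by push_cast; ring

lemma good_of_split {p : ℕ} (hp : p.Prime) (L : ℝ) (n : ℕ)
    (h : ∀ d, d < p → Good p L (p * n + d)) : Good p L n := by
  intro k m hm
  rcases k with _ | k
  · have hm0 : m = 0 := by simpa using hm
    subst hm0
    have h1 := h 0 hp.pos 0 0 (by simp)
    have hT : (0 : ℝ) < ((p * (p + 1) / 2 : ℕ) : ℝ) := by
      have : 0 < p * (p + 1) / 2 := Nat.div_pos (by nlinarith [hp.two_le]) (by norm_num)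
      exact_mod_cast this
    simp only [add_zero, pow_zero, mul_one] at h1 ⊢
    rw [f_mul hp] at h1
    push_cast [-Nat.cast_ofNat] at h1
    rw [Real.mul_rpow (by positivity) (by positivity), pow_theta hp] at h1
    have h2 : ((p * (p + 1) / 2 : ℕ) : ℝ) * (L * (n : ℝ) ^ theta p) ≤
        ((p * (p + 1) / 2 : ℕ) : ℝ) * (f p n : ℝ) := by
      calc _ = L * (((p * (p + 1) / 2 : ℕ) : ℝ) * (n : ℝ) ^ theta p) := by ring
        _ ≤ _ := by simpa using h1
    exact le_of_mul_le_mul_left h2 hT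
  · have hpk : 0 < p ^ k := pow_pos hp.pos k
    have hd : m / p ^ k < p := by
      rw [Nat.div_lt_iff_lt_mul hpk]
      rwa [pow_succ, mul_comm] at hm
    have h1 := h (m / p ^ k) hd k (m % p ^ k) (Nat.mod_lt _ hpk)
    have h2 : (p * n + m / p ^ k) * p ^ k + m % p ^ k = n * p ^ (k + 1) + m := by
      have := Nat.div_add_mod m (p ^ k)
      calc (p * n + m / p ^ k) * p ^ k + m % p ^ k
          = n * p ^ (k + 1) + (p ^ k * (m / p ^ k) + m % p ^ k) := by ring
        _ = _ := by rw [this]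
    rwa [h2] at h1


lemma tri_pos {p : ℕ} (hp : p.Prime) : 0 < p * (p + 1) / 2 :=
  Nat.div_pos (by nlinarith [hp.two_le]) (by norm_num)

/-- The corner point.  Here `p = 2 M + 1`, `c₀ = f(n₀) + R(n₀) / 4`, `x₀ = n₀ + 1 / 2`. -/
lemma good_special {p M : ℕ} (hp : p.Prime) (hM : p = 2 * M + 1) (hθ : 1 ≤ theta p)
    (L : ℝ) (hL0 : 0 ≤ L) (n₀ : ℕ)
    (hL : L * ((n₀ : ℝ) + 1 / 2) ^ theta p = (f p n₀ : ℝ) + (R p n₀ : ℝ) / 4)
    (hsmall : L * (n₀ : ℝ) ^ theta p ≤ f p n₀)
    (h : ∀ d, d < p → d ≠ M → Good p L (p * n₀ + d)) : Good p L n₀ := by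
  intro k
  induction k with
  | zero =>
    intro m hm
    have hm0 : m = 0 := by simpa using hm
    subst hm0
    simpa using hsmall
  | succ k ih =>
    intro m hm
    have hpk : 0 < p ^ k := pow_pos hp.pos k
    have hd : m / p ^ k < p := by
      rw [Nat.div_lt_iff_lt_mul hpk]
      rwa [pow_succ, mul_comm] at hm
    have hmod : m % p ^ k < p ^ k := Nat.mod_lt _ hpk
    by_cases hdM : m / p ^ k = M
    · -- the corner case
      set m' := m % p ^ k with hm'
      have hmm : m = M * p ^ k + m' := by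
        have := Nat.div_add_mod m (p ^ k)
        rw [hdM] at this
        rw [hm', mul_comm M]; exact this.symm
      have ih' := ih m' hmod
      set T : ℝ := ((p * (p + 1) / 2 : ℕ) : ℝ) with hT
      have hTN : p * (p + 1) / 2 = p * (M + 1) := by
        have h2 : p * (p + 1) = 2 * (p * (M + 1)) := by
          have : p + 1 = 2 * (M + 1) := by omega
          rw [this]; ring
        rw [h2, Nat.mul_div_cancel_left _ (by norm_num)]
      have hTR : T = (p : ℝ) * ((M : ℝ) + 1) := by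
        rw [hT, hTN]; push_cast; ring
      have hTpos : 0 < T := by
        rw [hT]; exact_mod_cast tri_pos hp
      have hMR : (p : ℝ) = 2 * (M : ℝ) + 1 := by
        rw [hM]; push_cast; ring
      have hppos : (0 : ℝ) < p := by exact_mod_cast hp.pos
      -- values of f
      have e1 : (f p (n₀ * p ^ (k + 1) + m) : ℝ) =
          T ^ (k + 1) * f p n₀ + R p n₀ * (T ^ k * ((M : ℝ) * (M + 1) / 2) +
            ((M : ℝ) + 1) * f p m') := by
        rw [f_split hp n₀ (k + 1) m hm.le, hmm, f_split hp M k m' hmod.le,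
          f_digit hp M (by omega), R_digit hp M (by omega)]
        have h6 : ((M * (M + 1) / 2 : ℕ) : ℝ) = (M : ℝ) * (M + 1) / 2 := by
          have h7 : (2 : ℝ) * ((M * (M + 1) / 2 : ℕ) : ℝ) = (M : ℝ) * (M + 1) := by
            exact_mod_cast two_tri M
          linarith
        rw [Nat.cast_add, Nat.cast_mul, Nat.cast_mul, Nat.cast_add, Nat.cast_mul, Nat.cast_mul,
          Nat.cast_pow, Nat.cast_pow, h6]
        push_cast
        rw [hT]
      have e2 : (f p (n₀ * p ^ k + m') : ℝ) = T ^ k * f p n₀ + R p n₀ * f p m' := by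
        rw [f_split hp n₀ k m' hmod.le, Nat.cast_add, Nat.cast_mul, Nat.cast_mul, Nat.cast_pow]
      set N' : ℝ := ((n₀ * p ^ k + m' : ℕ) : ℝ) with hN'
      have e3 : ((n₀ * p ^ (k + 1) + m : ℕ) : ℝ) =
          (p : ℝ) * ((1 - 1 / (p : ℝ)) * (((n₀ : ℝ) + 1 / 2) * (p : ℝ) ^ k) + (1 / (p : ℝ)) * N') := by
        rw [hN', hmm]
        push_cast
        field_simp
        rw [hMR]
        ring
      have hconv := (convexOn_rpow hθ).2
        (show ((n₀ : ℝ) + 1 / 2) * (p : ℝ) ^ k ∈ Set.Ici (0 : ℝ) by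
          simp only [Set.mem_Ici]; positivity)
        (show N' ∈ Set.Ici (0 : ℝ) by simp only [Set.mem_Ici]; rw [hN']; positivity)
        (show (0 : ℝ) ≤ 1 - 1 / (p : ℝ) by
          have : (1 : ℝ) ≤ p := by exact_mod_cast hp.one_lt.le
          rw [sub_nonneg, div_le_one hppos]; exact this)
        (show (0 : ℝ) ≤ 1 / (p : ℝ) by positivity) (by ring)
      simp only [smul_eq_mul] at hconv
      have e4 : (((n₀ : ℝ) + 1 / 2) * (p : ℝ) ^ k) ^ theta p =
          ((n₀ : ℝ) + 1 / 2) ^ theta p * T ^ k := by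
        rw [Real.mul_rpow (by positivity) (by positivity)]
        congr 1
        rw [← Real.rpow_natCast, ← Real.rpow_mul (by positivity), mul_comm, Real.rpow_mul
          (by positivity), pow_theta hp, Real.rpow_natCast]
      rw [e4] at hconv
      rw [e3, Real.mul_rpow hppos.le (by
        have : (0 : ℝ) ≤ 1 - 1 / (p : ℝ) := by
          have : (1 : ℝ) ≤ p := by exact_mod_cast hp.one_lt.le
          rw [sub_nonneg, div_le_one hppos]; exact this
        have : 0 ≤ N' := by rw [hN']; positivity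
        positivity), pow_theta hp, ← hT, e1]
      rw [e2] at ih'
      have e5 : L * (T * ((1 - 1 / (p : ℝ)) * (((n₀ : ℝ) + 1 / 2) * (p : ℝ) ^ k) +
          (1 / (p : ℝ)) * N') ^ theta p) ≤
          L * (T * ((1 - 1 / (p : ℝ)) * (((n₀ : ℝ) + 1 / 2) ^ theta p * T ^ k) +
          (1 / (p : ℝ)) * N' ^ theta p)) :=
        mul_le_mul_of_nonneg_left (mul_le_mul_of_nonneg_left hconv hTpos.le) hL0
      refine e5.trans ?_
      have e6 : L * (T * ((1 - 1 / (p : ℝ)) * (((n₀ : ℝ) + 1 / 2) ^ theta p * T ^ k) +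
          (1 / (p : ℝ)) * N' ^ theta p)) =
          T * (1 - 1 / (p : ℝ)) * ((L * ((n₀ : ℝ) + 1 / 2) ^ theta p) * T ^ k) +
          T * (1 / (p : ℝ)) * (L * N' ^ theta p) := by ring
      rw [e6, hL]
      have e7 : T * (1 / (p : ℝ)) = (M : ℝ) + 1 := by
        rw [hTR]; field_simp
      have e8 : T * (1 - 1 / (p : ℝ)) = 2 * (M : ℝ) * ((M : ℝ) + 1) := by
        have : T * (1 - 1 / (p : ℝ)) = T - T * (1 / (p : ℝ)) := by ring
        rw [this, e7, hTR, hMR]; ring
      rw [e7, e8]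
      have e9 : ((M : ℝ) + 1) * (L * N' ^ theta p) ≤
          ((M : ℝ) + 1) * (T ^ k * (f p n₀ : ℝ) + (R p n₀ : ℝ) * (f p m' : ℝ)) :=
        mul_le_mul_of_nonneg_left ih' (by positivity)
      have e10 : T ^ (k + 1) = T ^ k * ((2 * (M : ℝ) + 1) * ((M : ℝ) + 1)) := by
        rw [pow_succ, hTR, hMR]
      rw [e10]
      nlinarith [e9]
    · have h1 := h (m / p ^ k) hd hdM k (m % p ^ k) hmod
      have h2 : (p * n₀ + m / p ^ k) * p ^ k + m % p ^ k = n₀ * p ^ (k + 1) + m := by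
        have := Nat.div_add_mod m (p ^ k)
        calc (p * n₀ + m / p ^ k) * p ^ k + m % p ^ k
            = n₀ * p ^ (k + 1) + (p ^ k * (m / p ^ k) + m % p ^ k) := by ring
          _ = _ := by rw [this]
      rwa [h2] at h1

/-! ### The verified branch-and-bound certificate -/

/-- leaf test: `f(n) / (c₀ T^j) ≥ ((n+1) / (x₀ p^j)) ^ θ`, tested with rational bounds of `θ`;
`num = 4 f(n)`, `den = 4 c₀ T ^ j`, `rn = 2 (n + 1)`, `rd = 2 x₀ p ^ j`. -/
def leaf (a b a' b' num den rn rd : ℕ) : Bool :=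
  if rd ≤ rn then Nat.ble (den ^ b * rn ^ a) (num ^ b * rd ^ a)
  else Nat.ble (den ^ b' * rn ^ a') (num ^ b' * rd ^ a')

/-- branch and bound -/
def chk (p M n₀ a b a' b' C X : ℕ) : (fuel n F r Tj Pj : ℕ) → Bool
  | 0, _, _, _, _, _ => false
  | k + 1, n, F, r, Tj, Pj =>
    leaf a b a' b' (4 * F) (C * Tj) (2 * (n + 1)) (X * Pj) ||
    (List.range p).all (fun d => (n == n₀ && d == M) ||
      chk p M n₀ a b a' b' C X k (p * n + d) (p * (p + 1) / 2 * F + d * (d + 1) / 2 * r)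
        ((d + 1) * r) (Tj * (p * (p + 1) / 2)) (Pj * p))

lemma leaf_sound {p : ℕ} (hp : p.Prime) (a b a' b' : ℕ) (hb : 0 < b) (hb' : 0 < b')
    (hup : (p * (p + 1) / 2) ^ b ≤ p ^ a) (hlo : p ^ a' ≤ (p * (p + 1) / 2) ^ b')
    (num den rn rd : ℕ) (hden : 0 < den) (hrn : 0 < rn) (hrd : 0 < rd)
    (h : leaf a b a' b' num den rn rd = true) :
    ((rn : ℝ) / rd) ^ theta p ≤ (num : ℝ) / den := by
  have hdenR : (0 : ℝ) < den := by exact_mod_cast hden
  have hrnR : (0 : ℝ) < rn := by exact_mod_cast hrn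
  have hrdR : (0 : ℝ) < rd := by exact_mod_cast hrd
  have hrho : 0 < (rn : ℝ) / rd := by positivity
  have main : ∀ u v : ℕ, 0 < v → den ^ v * rn ^ u ≤ num ^ v * rd ^ u →
      ((rn : ℝ) / rd) ^ ((u : ℝ) / v) ≤ (num : ℝ) / den := by
    intro u v hv huv
    have hvR : (0 : ℝ) < v := by exact_mod_cast hv
    have h1 : (den : ℝ) ^ v * (rn : ℝ) ^ u ≤ (num : ℝ) ^ v * (rd : ℝ) ^ u := by
      exact_mod_cast huv
    have h2 : ((rn : ℝ) / rd) ^ u ≤ ((num : ℝ) / den) ^ v := by
      rw [div_pow, div_pow, div_le_div_iff₀ (by positivity) (by positivity)]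
      linarith
    have h3 : (((rn : ℝ) / rd) ^ ((u : ℝ) / v)) ^ v ≤ ((num : ℝ) / den) ^ v := by
      rw [← Real.rpow_natCast (((rn : ℝ) / rd) ^ ((u : ℝ) / v)), ← Real.rpow_mul hrho.le,
        div_mul_cancel₀ _ hvR.ne', Real.rpow_natCast]
      exact h2
    exact le_of_pow_le_pow_left₀ hv.ne' (by positivity) h3
  unfold leaf at h
  split_ifs at h with hc
  · have h1 := main a b hb (Nat.le_of_ble_eq_true h)
    refine le_trans ?_ h1
    apply Real.rpow_le_rpow_of_exponent_le _ (theta_le_of hp a b hb hup)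
    rw [le_div_iff₀ hrdR, one_mul]
    exact_mod_cast hc
  · have h1 := main a' b' hb' (Nat.le_of_ble_eq_true h)
    refine le_trans ?_ h1
    apply Real.rpow_le_rpow_of_exponent_ge hrho _ (le_theta_of hp a' b' hb' hlo)
    rw [div_le_one hrdR]
    push Not at hc
    exact_mod_cast hc.le


lemma good_of_chk {p M : ℕ} (hp : p.Prime) (hM : p = 2 * M + 1) (a b a' b' : ℕ)
    (hb : 0 < b) (hb' : 0 < b')
    (hup : (p * (p + 1) / 2) ^ b ≤ p ^ a) (hlo : p ^ a' ≤ (p * (p + 1) / 2) ^ b')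
    (hθ : 1 ≤ theta p) (L : ℝ) (hL0 : 0 ≤ L) (n₀ : ℕ)
    (hL : L * ((n₀ : ℝ) + 1 / 2) ^ theta p = (f p n₀ : ℝ) + (R p n₀ : ℝ) / 4)
    (hsmall : L * (n₀ : ℝ) ^ theta p ≤ f p n₀)
    (C X : ℕ) (hC : C = 4 * f p n₀ + R p n₀) (hX : X = 2 * n₀ + 1) (hCpos : 0 < C) :
    ∀ (fuel n F r Tj Pj j : ℕ), F = f p n → r = R p n → Tj = (p * (p + 1) / 2) ^ j →
      Pj = p ^ j → chk p M n₀ a b a' b' C X fuel n F r Tj Pj = true → Good p L n := by
  intro fuel
  induction fuel with
  | zero => intro n F r Tj Pj j _ _ _ _ h; simp [chk] at h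
  | succ fuel ih =>
    intro n F r Tj Pj j hF hr hT hP h
    rw [chk, Bool.or_eq_true] at h
    rcases h with h | h
    · apply good_of_le hp (by linarith) L hL0
      have hTpos : 0 < Tj := by rw [hT]; exact pow_pos (tri_pos hp) j
      have hPpos : 0 < Pj := by rw [hP]; exact pow_pos hp.pos j
      have h1 := leaf_sound hp a b a' b' hb hb' hup hlo _ _ _ _
        (Nat.mul_pos hCpos hTpos) (by omega) (Nat.mul_pos (by omega) hPpos) h
      have hx0 : (0 : ℝ) < (n₀ : ℝ) + 1 / 2 := by positivity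
      have e1 : ((2 * (n + 1) : ℕ) : ℝ) / ((X * Pj : ℕ) : ℝ) =
          ((n + 1 : ℕ) : ℝ) / (((n₀ : ℝ) + 1 / 2) * (p : ℝ) ^ j) := by
        rw [hX, hP]
        push_cast
        have hppos : (0 : ℝ) < (p : ℝ) ^ j := by
          have : (0 : ℝ) < p := by exact_mod_cast hp.pos
          positivity
        rw [div_eq_div_iff (by positivity) (by positivity)]
        ring
      have e2 : (((n₀ : ℝ) + 1 / 2) * (p : ℝ) ^ j) ^ theta p =
          ((n₀ : ℝ) + 1 / 2) ^ theta p * ((p * (p + 1) / 2 : ℕ) : ℝ) ^ j := by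
        rw [Real.mul_rpow (by positivity) (by positivity)]
        congr 1
        rw [← Real.rpow_natCast, ← Real.rpow_mul (by positivity), mul_comm, Real.rpow_mul
          (by positivity), pow_theta hp, Real.rpow_natCast]
      rw [e1, Real.div_rpow (by positivity) (by positivity), e2] at h1
      have hTR : (0 : ℝ) < ((p * (p + 1) / 2 : ℕ) : ℝ) ^ j := by
        have : (0 : ℝ) < ((p * (p + 1) / 2 : ℕ) : ℝ) := by exact_mod_cast tri_pos hp
        positivity
      have e3 : ((4 * F : ℕ) : ℝ) / ((C * Tj : ℕ) : ℝ) =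
          (f p n : ℝ) / (L * ((n₀ : ℝ) + 1 / 2) ^ theta p * ((p * (p + 1) / 2 : ℕ) : ℝ) ^ j) := by
        rw [hL, hF, hT, Nat.cast_mul, Nat.cast_mul, Nat.cast_pow, hC]
        have hCR : (0 : ℝ) < ((4 * f p n₀ + R p n₀ : ℕ) : ℝ) := by
          rw [← hC]; exact_mod_cast hCpos
        have hCR' : (0 : ℝ) < (f p n₀ : ℝ) + (R p n₀ : ℝ) / 4 := by
          push_cast at hCR; linarith
        rw [div_eq_div_iff (by positivity) (by positivity)]
        push_cast
        ring
      rw [e3] at h1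
      have hxθ : (0 : ℝ) < ((n₀ : ℝ) + 1 / 2) ^ theta p := Real.rpow_pos_of_pos hx0 _
      have hLpos : 0 < L := by
        have hCR : (0 : ℝ) < ((4 * f p n₀ + R p n₀ : ℕ) : ℝ) := by
          rw [← hC]; exact_mod_cast hCpos
        have hCR' : (0 : ℝ) < (f p n₀ : ℝ) + (R p n₀ : ℝ) / 4 := by
          push_cast at hCR; linarith
        rw [← hL] at hCR'
        rcases hL0.lt_or_eq with h0 | h0
        · exact h0
        · rw [← h0, zero_mul] at hCR'
          exact absurd hCR' (lt_irrefl _)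
      rw [div_le_div_iff₀ (by positivity) (by positivity)] at h1
      have h2 : (((n₀ : ℝ) + 1 / 2) ^ theta p * ((p * (p + 1) / 2 : ℕ) : ℝ) ^ j) *
          (L * ((n + 1 : ℕ) : ℝ) ^ theta p) ≤
          (((n₀ : ℝ) + 1 / 2) ^ theta p * ((p * (p + 1) / 2 : ℕ) : ℝ) ^ j) * f p n := by
        linarith
      exact le_of_mul_le_mul_left h2 (by positivity)
    · rw [List.all_eq_true] at h
      have h3 : ∀ d, d < p → (n = n₀ ∧ d = M) ∨ Good p L (p * n + d) := by
        intro d hd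
        have h4 := h d (List.mem_range.mpr hd)
        rw [Bool.or_eq_true] at h4
        rcases h4 with h4 | h4
        · left
          simpa using h4
        · right
          refine ih _ _ _ _ _ (j + 1) ?_ ?_ ?_ ?_ h4
          · rw [hF, hr, f_rec hp n d hd.le]
          · rw [hr, R_rec hp n d hd]
          · rw [hT, pow_succ]
          · rw [hP, pow_succ]
      by_cases hn : n = n₀
      · subst hn
        refine good_special hp hM hθ L hL0 n hL hsmall ?_
        intro d hd hdM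
        rcases h3 d hd with h5 | h5
        · exact absurd h5.2 hdM
        · exact h5
      · refine good_of_split hp L n ?_
        intro d hd
        rcases h3 d hd with h5 | h5
        · exact absurd h5.1 hn
        · exact h5

lemma lower_of_good {p : ℕ} (hp : p.Prime) (L : ℝ)
    (h : ∀ d, 1 ≤ d → d < p → Good p L d) (N : ℕ) (hN : 1 ≤ N) :
    L * (N : ℝ) ^ theta p ≤ f p N := by
  have hk := Nat.pow_log_le_self p (x := N) (by omega)
  have hk2 := Nat.lt_pow_succ_log_self hp.one_lt N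
  set k := Nat.log p N with hkdef
  have hpk : 0 < p ^ k := pow_pos hp.pos k
  have h1 := h (N / p ^ k) (Nat.div_pos hk hpk)
    (by rw [Nat.div_lt_iff_lt_mul hpk]; rwa [pow_succ, mul_comm] at hk2)
    k (N % p ^ k) (Nat.mod_lt _ hpk)
  have h2 : N / p ^ k * p ^ k + N % p ^ k = N := by
    rw [mul_comm]; exact Nat.div_add_mod _ _
  rwa [h2] at h1

/-- `f_p((p^k - 1) / 2)`, up to a positive error. -/
lemma f_half {p M : ℕ} (hp : p.Prime) (hM : p = 2 * M + 1) (k : ℕ) :
    ∃ m : ℕ, 2 * m + 1 = p ^ k ∧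
      4 * (f p m : ℝ) ≤ ((p * (p + 1) / 2 : ℕ) : ℝ) ^ k := by
  have key : ∀ k : ℕ, ∃ m : ℕ, 2 * m + 1 = p ^ k ∧
      4 * f p m + (M + 1) ^ k = (p * (p + 1) / 2) ^ k := by
    intro k
    induction k with
    | zero => exact ⟨0, by simp, by simp [f_zero]⟩
    | succ k ih =>
      obtain ⟨m, hm, hf⟩ := ih
      refine ⟨M * p ^ k + m, ?_, ?_⟩
      · calc 2 * (M * p ^ k + m) + 1 = 2 * M * p ^ k + (2 * m + 1) := by ring
          _ = (2 * M + 1) * p ^ k := by rw [hm]; ring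
          _ = p ^ (k + 1) := by rw [← hM]; ring
      · rw [f_split hp M k m (by omega), f_digit hp M (by omega), R_digit hp M (by omega)]
        have hTN : p * (p + 1) / 2 = (2 * M + 1) * (M + 1) := by
          have h2 : p * (p + 1) = 2 * ((2 * M + 1) * (M + 1)) := by
            rw [hM]; ring
          rw [h2, Nat.mul_div_cancel_left _ (by norm_num)]
        have h2t := two_tri M
        generalize M * (M + 1) / 2 = t at *
        rw [hTN] at hf ⊢
        calc 4 * (((2 * M + 1) * (M + 1)) ^ k * t + (M + 1) * f p m) + (M + 1) ^ (k + 1)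
            = ((2 * M + 1) * (M + 1)) ^ k * (2 * (2 * t)) +
                (M + 1) * (4 * f p m + (M + 1) ^ k) := by ring
          _ = ((2 * M + 1) * (M + 1)) ^ (k + 1) := by
                rw [h2t, hf]; ring
  obtain ⟨m, hm, hf⟩ := key k
  refine ⟨m, hm, ?_⟩
  have : ((4 * f p m + (M + 1) ^ k : ℕ) : ℝ) = (((p * (p + 1) / 2) ^ k : ℕ) : ℝ) := by
    rw [hf]
  rw [Nat.cast_pow] at this
  rw [← this]
  push_cast
  have : (0 : ℝ) ≤ ((M : ℝ) + 1) ^ k := by positivity
  linarith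

theorem lam_eq {p M : ℕ} (hp : p.Prime) (hM : p = 2 * M + 1) (L : ℝ) 
    (n₀ : ℕ) (hn₀ : 0 < n₀)
    (hL : L * ((n₀ : ℝ) + 1 / 2) ^ theta p = (f p n₀ : ℝ) + (R p n₀ : ℝ) / 4)
    (hlow : ∀ N : ℕ, 1 ≤ N → L * (N : ℝ) ^ theta p ≤ f p N) : lam p = L := by
  have hppos : (0 : ℝ) < p := by exact_mod_cast hp.pos
  have hx0 : (0 : ℝ) < (n₀ : ℝ) + 1 / 2 := by positivity
  -- lower bound
  have hev : ∀ᶠ n : ℕ in Filter.atTop, L ≤ (f p n : ℝ) * (n : ℝ) ^ (-theta p) := by
    filter_upwards [Filter.eventually_ge_atTop 1] with n hn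
    have h1 := hlow n hn
    have hn' : (0 : ℝ) < n := by exact_mod_cast hn
    have h2 : (0 : ℝ) < (n : ℝ) ^ theta p := Real.rpow_pos_of_pos hn' _
    rw [Real.rpow_neg hn'.le, ← div_eq_mul_inv, le_div_iff₀ h2]
    exact h1
  -- the subsequence
  choose m hm hfm using f_half hp hM
  have hφ : Filter.Tendsto (fun k => n₀ * p ^ k + m k) Filter.atTop Filter.atTop := by
    apply Filter.tendsto_atTop_mono (f := fun k => k) _ Filter.tendsto_id
    intro k
    have h1 : k < p ^ k := Nat.lt_pow_self hp.one_lt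
    have h2 : p ^ k ≤ n₀ * p ^ k := Nat.le_mul_of_pos_left _ hn₀
    omega
  have hq : Filter.Tendsto (fun k : ℕ => ((1 : ℝ) / p) ^ k) Filter.atTop (nhds 0) := by
    apply tendsto_pow_atTop_nhds_zero_of_lt_one (by positivity)
    rw [div_lt_one hppos]
    exact_mod_cast hp.one_lt
  have hw : Filter.Tendsto (fun k : ℕ =>
      ((f p n₀ : ℝ) + (R p n₀ : ℝ) / 4) * (((n₀ : ℝ) + 1 / 2) - (1 / 2) * ((1 : ℝ) / p) ^ k) ^
        (-theta p)) Filter.atTop (nhds L) := by
    have h1 : Filter.Tendsto (fun k : ℕ => ((n₀ : ℝ) + 1 / 2) - (1 / 2) * ((1 : ℝ) / p) ^ k)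
        Filter.atTop (nhds ((n₀ : ℝ) + 1 / 2)) := by
      have := (hq.const_mul (1 / 2)).const_sub ((n₀ : ℝ) + 1 / 2)
      simpa using this
    have h2 := (h1.rpow_const (p := -theta p) (Or.inl hx0.ne')).const_mul
      ((f p n₀ : ℝ) + (R p n₀ : ℝ) / 4)
    have h3 : ((f p n₀ : ℝ) + (R p n₀ : ℝ) / 4) * ((n₀ : ℝ) + 1 / 2) ^ (-theta p) = L := by
      rw [← hL, Real.rpow_neg hx0.le, mul_assoc, mul_inv_cancel₀, mul_one]
      exact (Real.rpow_pos_of_pos hx0 _).ne'
    rwa [h3] at h2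
  have hle : ∀ k : ℕ, (f p (n₀ * p ^ k + m k) : ℝ) *
      ((n₀ * p ^ k + m k : ℕ) : ℝ) ^ (-theta p) ≤
      ((f p n₀ : ℝ) + (R p n₀ : ℝ) / 4) * (((n₀ : ℝ) + 1 / 2) - (1 / 2) * ((1 : ℝ) / p) ^ k) ^
        (-theta p) := by
    intro k
    set T : ℝ := ((p * (p + 1) / 2 : ℕ) : ℝ) with hT
    have hTpos : 0 < T := by rw [hT]; exact_mod_cast tri_pos hp
    have hpk : (0 : ℝ) < (p : ℝ) ^ k := by positivity
    have hmk : (m k : ℝ) = ((p : ℝ) ^ k - 1) / 2 := by
      have : (2 : ℝ) * (m k : ℝ) + 1 = (p : ℝ) ^ k := by exact_mod_cast hm k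
      linarith
    have e1 : ((n₀ * p ^ k + m k : ℕ) : ℝ) =
        (((n₀ : ℝ) + 1 / 2) - (1 / 2) * ((1 : ℝ) / p) ^ k) * (p : ℝ) ^ k := by
      push_cast
      rw [hmk, div_pow, one_pow]
      field_simp
      ring
    have hy : 0 ≤ ((n₀ : ℝ) + 1 / 2) - (1 / 2) * ((1 : ℝ) / p) ^ k := by
      have : ((1 : ℝ) / p) ^ k ≤ 1 := by
        apply pow_le_one₀ (by positivity)
        rw [div_le_one hppos]
        exact_mod_cast hp.one_lt.le
      have h0 : (0 : ℝ) ≤ n₀ := by positivity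
      linarith
    have e2 : (f p (n₀ * p ^ k + m k) : ℝ) ≤ T ^ k * ((f p n₀ : ℝ) + (R p n₀ : ℝ) / 4) := by
      rw [f_split hp n₀ k (m k) (by have := hm k; omega), Nat.cast_add, Nat.cast_mul,
        Nat.cast_mul, Nat.cast_pow]
      have h1 := hfm k
      have h2 : (R p n₀ : ℝ) * (4 * (f p (m k) : ℝ)) ≤ (R p n₀ : ℝ) * T ^ k :=
        mul_le_mul_of_nonneg_left h1 (by positivity)
      rw [← hT]
      linarith
    have e3 : ((p : ℝ) ^ k) ^ (-theta p) = (T ^ k)⁻¹ := by
      rw [Real.rpow_neg (by positivity)]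
      congr 1
      rw [← Real.rpow_natCast, ← Real.rpow_mul (by positivity), mul_comm, Real.rpow_mul
        (by positivity), pow_theta hp, Real.rpow_natCast]
    rw [e1, Real.mul_rpow hy (by positivity), e3]
    have hz : 0 ≤ (((n₀ : ℝ) + 1 / 2) - (1 / 2) * ((1 : ℝ) / p) ^ k) ^ (-theta p) :=
      Real.rpow_nonneg hy _
    calc (f p (n₀ * p ^ k + m k) : ℝ) *
          ((((n₀ : ℝ) + 1 / 2) - (1 / 2) * ((1 : ℝ) / p) ^ k) ^ (-theta p) * (T ^ k)⁻¹)
        ≤ (T ^ k * ((f p n₀ : ℝ) + (R p n₀ : ℝ) / 4)) *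
          ((((n₀ : ℝ) + 1 / 2) - (1 / 2) * ((1 : ℝ) / p) ^ k) ^ (-theta p) * (T ^ k)⁻¹) :=
          mul_le_mul_of_nonneg_right e2 (by positivity)
      _ = _ := by
        have : T ^ k ≠ 0 := by positivity
        field_simp
  have hfreq : ∀ ε : ℝ, 0 < ε →
      ∃ᶠ n : ℕ in Filter.atTop, (f p n : ℝ) * (n : ℝ) ^ (-theta p) ≤ L + ε := by
    intro ε hε
    have h1 : ∀ᶠ k : ℕ in Filter.atTop, (f p (n₀ * p ^ k + m k) : ℝ) *
      ((n₀ * p ^ k + m k : ℕ) : ℝ) ^ (-theta p) ≤ L + ε := by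
      filter_upwards [hw.eventually (ge_mem_nhds (show L < L + ε by linarith))] with k hk
      exact (hle k).trans hk
    exact hφ.frequently h1.frequently
  have hbdd : Filter.IsBoundedUnder (· ≥ ·) Filter.atTop
      (fun n : ℕ => (f p n : ℝ) * (n : ℝ) ^ (-theta p)) :=
    Filter.isBoundedUnder_of_eventually_ge hev
  have hcobdd : Filter.IsCoboundedUnder (· ≥ ·) Filter.atTop
      (fun n : ℕ => (f p n : ℝ) * (n : ℝ) ^ (-theta p)) :=
    Filter.IsCoboundedUnder.of_frequently_le (hfreq 1 one_pos)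
  apply le_antisymm
  · apply le_of_forall_pos_le_add
    intro ε hε
    exact Filter.liminf_le_of_frequently_le (hfreq ε hε) hbdd
  · exact Filter.le_liminf_of_le hcobdd hev


/-- The whole argument, from a certificate.  `L0digits` lists the prefixes to be checked. -/
theorem lam_of_certificate {p M : ℕ} (hp : p.Prime) (hM : p = 2 * M + 1) (a b a' b' : ℕ)
    (hb : 0 < b) (hb' : 0 < b') (hab : b' ≤ a')
    (hup : (p * (p + 1) / 2) ^ b ≤ p ^ a) (hlo : p ^ a' ≤ (p * (p + 1) / 2) ^ b')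
    (n₀ : ℕ) (hn₀ : 0 < n₀) (F₀ R₀ : ℕ) (hF₀ : F₀ = f p n₀) (hR₀ : R₀ = R p n₀)
    (hsm : leaf a b a' b' (4 * F₀) (4 * F₀ + R₀) (2 * n₀) (2 * n₀ + 1) = true)
    (hR₀pos : 0 < R₀)
    (hdig : (∀ L : ℝ, (∀ (n F r : ℕ), F = f p n → r = R p n →
      chk p M n₀ a b a' b' (4 * F₀ + R₀) (2 * n₀ + 1) 6 n F r 1 1 = true → Good p L n) →
      ∀ d, 1 ≤ d → d < p → Good p L d)) :
    lam p = ((f p n₀ : ℝ) + (R p n₀ : ℝ) / 4) / ((n₀ : ℝ) + 1 / 2) ^ theta p := by
  have hθ : 1 ≤ theta p := by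
    refine le_trans ?_ (le_theta_of hp a' b' hb' hlo)
    rw [le_div_iff₀ (by exact_mod_cast hb'), one_mul]
    exact_mod_cast hab
  have hx0 : (0 : ℝ) < (n₀ : ℝ) + 1 / 2 := by positivity
  have hxθ : (0 : ℝ) < ((n₀ : ℝ) + 1 / 2) ^ theta p := Real.rpow_pos_of_pos hx0 _
  have hc0 : (0 : ℝ) < (f p n₀ : ℝ) + (R p n₀ : ℝ) / 4 := by
    rw [← hR₀]
    have : (0 : ℝ) < R₀ := by exact_mod_cast hR₀pos
    positivity
  set L : ℝ := ((f p n₀ : ℝ) + (R p n₀ : ℝ) / 4) / ((n₀ : ℝ) + 1 / 2) ^ theta p with hLdef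
  have hL : L * ((n₀ : ℝ) + 1 / 2) ^ theta p = (f p n₀ : ℝ) + (R p n₀ : ℝ) / 4 := by
    rw [hLdef, div_mul_cancel₀ _ hxθ.ne']
  have hL0 : 0 ≤ L := by rw [hLdef]; positivity
  have hsmall : L * (n₀ : ℝ) ^ theta p ≤ f p n₀ := by
    have h1 := leaf_sound hp a b a' b' hb hb' hup hlo _ _ _ _ (by omega) (by omega) (by omega) hsm
    have hn0R : (0 : ℝ) < n₀ := by exact_mod_cast hn₀
    have e1 : ((2 * n₀ : ℕ) : ℝ) / ((2 * n₀ + 1 : ℕ) : ℝ) = (n₀ : ℝ) / ((n₀ : ℝ) + 1 / 2) := by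
      push_cast
      rw [div_eq_div_iff (by positivity) (by positivity)]
      ring
    have e2 : ((4 * F₀ : ℕ) : ℝ) / ((4 * F₀ + R₀ : ℕ) : ℝ) =
        (f p n₀ : ℝ) / ((f p n₀ : ℝ) + (R p n₀ : ℝ) / 4) := by
      rw [← hF₀, ← hR₀]
      have : (0 : ℝ) < R₀ := by exact_mod_cast hR₀pos
      push_cast
      rw [div_eq_div_iff (by positivity) (by positivity)]
      ring
    rw [e1, e2, Real.div_rpow hn0R.le hx0.le, div_le_div_iff₀ hxθ hc0] at h1
    rw [hLdef, div_mul_eq_mul_div, div_le_iff₀ hxθ]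
    linarith
  apply lam_eq hp hM L n₀ hn₀ hL
  intro N hN
  apply lower_of_good hp L _ N hN
  apply hdig L
  intro n F r hF hr hchk
  exact good_of_chk hp hM a b a' b' hb hb' hup hlo hθ L hL0 n₀ hL hsmall _ _
    (by rw [hF₀, hR₀]) rfl (by omega) 6 n F r 1 1 0 hF hr (by simp) (by simp) hchk

theorem lam_five : lam 5 = (3 / 2 : ℝ) ^ (1 - theta 5) := by
  have hp : Nat.Prime 5 := by norm_num
  have h := lam_of_certificate (p := 5) (M := 2) hp (by norm_num) 17 10 5 3 (by norm_num)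
    (by norm_num) (by norm_num) (by norm_num) (by norm_num) 1 (by norm_num) 1 2
    (by rw [f_digit hp 1 (by norm_num)]) (by rw [R_digit hp 1 (by norm_num)])
    (by decide +kernel) (by norm_num) (by
      intro L hL d h1 h5
      refine hL d (d * (d + 1) / 2) (d + 1) (by rw [f_digit hp d h5.le]) (by rw [R_digit hp d h5]) ?_
      interval_cases d <;> decide +kernel)
  rw [h, f_digit hp 1 (by norm_num), R_digit hp 1 (by norm_num)]
  have h32 : (0 : ℝ) < 3 / 2 := by norm_num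
  rw [Real.rpow_sub h32, Real.rpow_one]
  norm_num

theorem lam_seven : lam 7 = (3 / 2 : ℝ) ^ (1 - theta 7) := by
  have hp : Nat.Prime 7 := by norm_num
  have h := lam_of_certificate (p := 7) (M := 3) hp (by norm_num) 12 7 17 10 (by norm_num)
    (by norm_num) (by norm_num) (by norm_num) (by norm_num) 1 (by norm_num) 1 2
    (by rw [f_digit hp 1 (by norm_num)]) (by rw [R_digit hp 1 (by norm_num)])
    (by decide +kernel) (by norm_num) (by
      intro L hL d h1 h5
      refine hL d (d * (d + 1) / 2) (d + 1) (by rw [f_digit hp d h5.le]) (by rw [R_digit hp d h5]) ?_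
      interval_cases d <;> decide +kernel)
  rw [h, f_digit hp 1 (by norm_num), R_digit hp 1 (by norm_num)]
  have h32 : (0 : ℝ) < 3 / 2 := by norm_num
  rw [Real.rpow_sub h32, Real.rpow_one]
  norm_num

lemma all_prefix_eleven :
    (List.range 10).all (fun d => (List.range 11).all (fun e =>
      chk 11 5 15 7 4 5 3 (4 * 86 + 10) (2 * 15 + 1) 6 (11 * (d + 1) + e)
        (66 * ((d + 1) * (d + 1 + 1) / 2) + e * (e + 1) / 2 * (d + 1 + 1)) ((e + 1) * (d + 1 + 1))
        1 1)) = true := by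
  decide +kernel

theorem lam_eleven : lam 11 = (59 / 44 : ℝ) * (22 / 31 : ℝ) ^ theta 11 := by
  have hp : Nat.Prime 11 := by norm_num
  have hf15 : f 11 15 = 86 := by
    have := f_rec hp 1 4 (by norm_num)
    rw [f_digit hp 1 (by norm_num), R_digit hp 1 (by norm_num)] at this
    simpa using this
  have hR15 : R 11 15 = 10 := by
    have := R_rec hp 1 4 (by norm_num)
    rw [R_digit hp 1 (by norm_num)] at this
    simpa using this
  have h := lam_of_certificate (p := 11) (M := 5) hp (by norm_num) 7 4 5 3 (by norm_num)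
    (by norm_num) (by norm_num) (by norm_num) (by norm_num) 15 (by norm_num) 86 10
    hf15.symm hR15.symm (by decide +kernel) (by norm_num) (by
      intro L hL d h1 h11
      apply good_of_split hp L d
      intro e he
      refine hL (11 * d + e) (66 * (d * (d + 1) / 2) + e * (e + 1) / 2 * (d + 1))
        ((e + 1) * (d + 1)) ?_ ?_ ?_
      · rw [f_rec hp d e he.le, f_digit hp d h11.le, R_digit hp d h11]
      · rw [R_rec hp d e he, R_digit hp d h11]
      · have h2 := all_prefix_eleven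
        rw [List.all_eq_true] at h2
        obtain ⟨d', rfl⟩ : ∃ d', d = d' + 1 := ⟨d - 1, by omega⟩
        have h3 := h2 d' (List.mem_range.mpr (by omega))
        rw [List.all_eq_true] at h3
        exact h3 e (List.mem_range.mpr he))
  rw [h, hf15, hR15]
  have hpt := pow_theta hp
  have e1 : (((15 : ℕ) : ℝ) + 1 / 2) = (31 / 22 : ℝ) * ((11 : ℕ) : ℝ) := by norm_num
  rw [e1, Real.mul_rpow (by norm_num) (by norm_num), hpt]
  have e2 : (22 / 31 : ℝ) = (31 / 22 : ℝ)⁻¹ := by norm_num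
  rw [e2, Real.inv_rpow (by norm_num)]
  have e3 : ((31 : ℝ) / 22) ^ theta 11 ≠ 0 := (Real.rpow_pos_of_pos (by norm_num) _).ne'
  norm_num
  field_simp
  norm_num

end Pool.Agent.W_MP_165cab_nt
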